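import Mathlib
import Pool.Agent.W978.QO.Stm
import Pool.Agent.W585.QN.DET
import Pool.Agent.W509.QN.BR
import Pool.Agent.W597.QN.RK

/-! Part DC of project QO (owner helper978): the determinants, curried form. -/

namespace Pool.Agent.W30.QO

open Finset Pool.Agent.W978.QN Pool.Agent.W978.QO

theorem cf_bvC (b : Fin 3 → Fin 3 → Fin 3 → ℤ) (p : Fin 3 → ℂ) (u v : Fin 3) :
    cf (fun i j k => (b i j k : ℂ)) p (bv u) (bv v) = mp b p v u := by
  unfold cf mp bv
  simp only [Pi.single_apply, mul_ite, mul_one, mul_zero, Finset.sum_ite_eq', mem_univ, if_true]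

theorem mt_mpC (hBR : S_BR) (a : (Fin 3 → Fin 3) → ℤ) (σ : Equiv.Perm (Fin 3))
    (P : Fin 3 → Fin 3 → ℂ) (u v : Fin 3) :
    mt a (σ 1) (σ 2) P u v = mp (cu a σ) (P (σ 0)) v u := by
  unfold Pool.Agent.W978.QN.mt
  rw [Matrix.of_apply, hBR ℂ a σ]
  have h10 : σ 0 ≠ σ 1 := fun h => by simpa using σ.injective h
  have h20 : σ 0 ≠ σ 2 := fun h => by simpa using σ.injective h
  have h21 : σ 1 ≠ σ 2 := fun h => by simpa using σ.injective h
  rw [Function.update_of_ne h20, Function.update_of_ne h10, Function.update_of_ne h21,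
    Function.update_self, Function.update_self, cf_bvC]

theorem dc (hBR : S_BR) (hDET : S_DET) : S_DC := by
  intro a ha σ
  have h21 : σ 1 ≠ σ 2 := fun h => by simpa using σ.injective h
  obtain ⟨P, hP⟩ := hDET a ha (σ 1) (σ 2) h21
  refine ⟨P (σ 0), ?_⟩
  have hM : mt a (σ 1) (σ 2) P = (Matrix.of (mp (cu a σ) (P (σ 0)))).transpose := by
    ext u v
    rw [mt_mpC hBR, Matrix.transpose_apply, Matrix.of_apply]
  rw [hM, Matrix.det_transpose] at hP
  exact hP

theorem t_DC : S_DC :=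
  dc Pool.Agent.W509.QN.br (Pool.Agent.W585.QN.main Pool.Agent.W509.QN.br
    (Pool.Agent.W597.QN.rk Pool.Agent.W509.QN.br))

end Pool.Agent.W30.QO
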